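import Pool.Agent.Helper76.TK5.StK

/-!
# Project TK (levels `3 * 5^n`), module DIMEK: the dimension of subEK
-/

set_option autoImplicit false

namespace Pool.Agent.Helper56.TK5

open Pool.Agent.Helper14.CV (Homog EqC act StFar)
open Pool.Agent.Helper14.W5
open Pool.Agent.Helper76.TH (TyH HDimK)
open Pool.Agent.Helper4.TK
open Pool.Agent.Helper76.TK5

section lin

variable {W W' : Type} [AddCommGroup W] [Module ℂ W] [FiniteDimensional ℂ W] [AddCommGroup W']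
  [Module ℂ W']

private theorem rn (f : W →ₗ[ℂ] W') (V : Submodule ℂ W) :
    Module.finrank ℂ (V.map f) + Module.finrank ℂ ↥(V ⊓ LinearMap.ker f) =
      Module.finrank ℂ V := by
  have h := LinearMap.finrank_range_add_finrank_ker (f.domRestrict V)
  rw [LinearMap.range_domRestrict, LinearMap.ker_domRestrict] at h
  have h2 : Module.finrank ℂ ↥((LinearMap.ker f).comap V.subtype) =
      Module.finrank ℂ ↥(V ⊓ LinearMap.ker f) := by
    rw [← Submodule.map_comap_subtype, Submodule.finrank_map_subtype_eq]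
  rw [h2] at h
  exact h

end lin

section lin2

variable {W W' : Type} [AddCommGroup W] [Module ℂ W] [FiniteDimensional ℂ W] [AddCommGroup W']
  [Module ℂ W'] [FiniteDimensional ℂ W']

private theorem fr_prod (V : Submodule ℂ W) (V' : Submodule ℂ W') :
    Module.finrank ℂ ↥(V.prod V') = Module.finrank ℂ V + Module.finrank ℂ V' := by
  have h1 : V.prod V' = LinearMap.range (V.subtype.prodMap V'.subtype) := by
    rw [LinearMap.range_prodMap, Submodule.range_subtype, Submodule.range_subtype]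
  rw [h1, LinearMap.finrank_range_of_inj, Module.finrank_prod]
  rintro ⟨a, b⟩ ⟨a', b'⟩ h
  simp only [LinearMap.prodMap_apply, Submodule.subtype_apply, Prod.mk.injEq,
    SetLike.coe_eq_coe] at h
  rw [h.1, h.2]

end lin2

private theorem pw0 {m : ℕ} (hm : 1 ≤ m) : (5 : ZMod (5 ^ m)) * 5 ^ (m - 1) = 0 := by
  rw [← pow_succ', Nat.sub_add_cancel hm]
  have h3 := ZMod.natCast_self (5 ^ m)
  push_cast at h3
  exact h3

private theorem red {m : ℕ} (hm : 1 ≤ m) (t : ℤ) :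
    (t : ZMod (5 ^ m)) * 5 ^ (m - 1) = ((t : ZMod 5).val : ZMod (5 ^ m)) * 5 ^ (m - 1) := by
  have h1 : ((t : ZMod 5).val : ℤ) = t % 5 := by
    rw [ZMod.val_intCast]
    norm_num
  have h2 : (((t : ZMod 5).val : ℕ) : ZMod (5 ^ m)) = ((t % 5 : ℤ) : ZMod (5 ^ m)) := by
    rw [← h1]
    push_cast
    rfl
  rw [h2]
  have h3 : t = t % 5 + 5 * (t / 5) := (Int.emod_add_mul_ediv t 5).symm
  have h4 : (t : ZMod (5 ^ m)) = ((t % 5 : ℤ) : ZMod (5 ^ m)) + 5 * ((t / 5 : ℤ) : ZMod (5 ^ m)) := by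
    conv_lhs => rw [h3]
    push_cast
    ring
  rw [h4]
  linear_combination ((t / 5 : ℤ) : ZMod (5 ^ m)) * pw0 hm

private theorem sum_zmod (g : ℕ → ℂ) :
    ∑ i ∈ Finset.range 5, g i = ∑ z : ZMod 5, g z.val := by
  have : ∀ h : ZMod 5 → ℂ, ∑ z : ZMod 5, h z = ∑ i : Fin 5, h i := fun h => rfl
  rw [Finset.sum_range, this]
  rfl

private theorem sum_s {m : ℕ} (hm : 1 ≤ m) (s : ℤ) (hs : ¬ (5 : ℤ) ∣ s)
    (g : ZMod (5 ^ m) → ℂ) :
    ∑ i ∈ Finset.range 5, g (s * ((i : ZMod (5 ^ m)) * 5 ^ (m - 1))) =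
      ∑ i ∈ Finset.range 5, g ((i : ZMod (5 ^ m)) * 5 ^ (m - 1)) := by
  have hf : Fact (Nat.Prime 5) := ⟨by norm_num⟩
  have hs0 : (s : ZMod 5) ≠ 0 := by
    intro h
    exact hs ((ZMod.intCast_zmod_eq_zero_iff_dvd s 5).1 h)
  rw [sum_zmod (fun i => g (s * ((i : ZMod (5 ^ m)) * 5 ^ (m - 1)))),
    sum_zmod (fun i => g ((i : ZMod (5 ^ m)) * 5 ^ (m - 1)))]
  refine Fintype.sum_equiv (Equiv.mulLeft₀ (s : ZMod 5) hs0) _ _ fun z => ?_
  have h1 := red hm (s * (z.val : ℤ))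
  have h2 : ((s * (z.val : ℤ) : ℤ) : ZMod 5) = (s : ZMod 5) * z := by
    push_cast
    rw [ZMod.natCast_zmod_val]
  rw [h2] at h1
  change g (s * ((z.val : ZMod (5 ^ m)) * 5 ^ (m - 1))) =
    g ((((s : ZMod 5) * z).val : ZMod (5 ^ m)) * 5 ^ (m - 1))
  rw [← h1]
  congr 1
  push_cast
  ring

private theorem anti_s {m : ℕ} (hm : 1 ≤ m) {F : Pt m → ℂ} (hF : F ∈ anti5 m) (s : ℤ)
    (hs : ¬ (5 : ℤ) ∣ s) (x y : ZMod (5 ^ m)) :
    ∑ i ∈ Finset.range 5, F (x + s * (i * 5 ^ (m - 1)), y) = 0 ∧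
      ∑ i ∈ Finset.range 5, F (x, y + s * (i * 5 ^ (m - 1))) = 0 := by
  obtain ⟨h1, h2⟩ := hF (x, y)
  constructor
  · rw [sum_s hm s hs (fun t => F (x + t, y))]
    exact h1
  · rw [sum_s hm s hs (fun t => F (x, y + t))]
    exact h2

private theorem dv_step {m : ℕ} (hm : 1 ≤ m) {s : ℤ} {φ : ZMod (5 ^ m) → ZMod (5 ^ m)}
    (h : Dv s φ) (x : ZMod (5 ^ m)) (i : ℕ) :
    φ (x + i * 5 ^ (m - 1)) = φ x + s * (i * 5 ^ (m - 1)) := by
  have h1 := h (m - 1) (x + i * 5 ^ (m - 1)) x ⟨i, by ring⟩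
  have h2 : (5 : ZMod (5 ^ m)) ^ (m - 1 + 1) = 0 := by
    rw [Nat.sub_add_cancel hm]
    have h3 := ZMod.natCast_self (5 ^ m)
    push_cast at h3
    exact h3
  rw [h2, zero_dvd_iff] at h1
  linear_combination h1

private theorem anti_comp {m n : ℕ} (hm : 1 ≤ m) {r : Pt m → Pt m} (hr : TyH n r) {F : Pt m → ℂ}
    (hF : F ∈ anti5 m) : (fun p => F (r p)) ∈ anti5 m := by
  rcases hr with ⟨_, s, s', φ, φ', hs, hs', _, _, hφ, hφ', hr⟩ | ⟨_, s, s', ψ, ψ', hs, hs', hψ, hψ', hr⟩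
  · intro p
    simp only [hr, dv_step hm hφ, dv_step hm hφ']
    exact ⟨(anti_s hm hF s hs (φ p.1) (φ' p.2)).1, (anti_s hm hF s' hs' (φ p.1) (φ' p.2)).2⟩
  · intro p
    simp only [hr, dv_step hm hψ, dv_step hm hψ']
    exact ⟨(anti_s hm hF s' hs' (ψ p.2) (ψ' p.1)).2, (anti_s hm hF s hs (ψ p.2) (ψ' p.1)).1⟩

/-- The space in which `subEK` lies. -/
abbrev SpK (m : ℕ) : Type :=
  ((Pt m → ℂ) × (Pt m → ℂ)) × ((Pt m → ℂ) × ((Pt m → ℂ) × (Pt m → ℂ)))

private def K1 {m : ℕ} : SpK m →ₗ[ℂ] (Pt m → ℂ) where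
  toFun F p := (F.2.1 p + F.2.2.1 p - F.2.2.2 p) +
      (F.2.1 (c1K p) + F.2.2.1 (c1K p) - F.2.2.2 (c1K p))
  map_add' F F' := by funext p; simp only [Prod.fst_add, Prod.snd_add, Pi.add_apply]; ring
  map_smul' c F := by
    funext p
    simp only [Prod.smul_fst, Prod.smul_snd, Pi.smul_apply, smul_eq_mul, RingHom.id_apply]
    ring

private def K2 {m : ℕ} : SpK m →ₗ[ℂ] (Pt m → ℂ) where
  toFun F p := zzK F.1.1 F.1.2 F.2.1 F.2.2.2 p - zzK F.1.1 F.1.2 F.2.1 F.2.2.2 (dR 1 p)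
  map_add' F F' := by
    funext p
    simp only [zzK, kkK, Prod.fst_add, Prod.snd_add, Pi.add_apply]
    ring
  map_smul' c F := by
    funext p
    simp only [zzK, kkK, Prod.smul_fst, Prod.smul_snd, Pi.smul_apply, smul_eq_mul,
      RingHom.id_apply]
    ring

private theorem K1_apply {m : ℕ} (F : SpK m) (p : Pt m) :
    K1 F p = (F.2.1 p + F.2.2.1 p - F.2.2.2 p) +
      (F.2.1 (c1K p) + F.2.2.1 (c1K p) - F.2.2.2 (c1K p)) := rfl

private theorem K2_apply {m : ℕ} (F : SpK m) (p : Pt m) :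
    K2 F p = zzK F.1.1 F.1.2 F.2.1 F.2.2.2 p - zzK F.1.1 F.1.2 F.2.1 F.2.2.2 (dR 1 p) := rfl

private theorem n1 : (((-1 : ℤ) : ℂ)) = -1 := by push_cast; rfl
private theorem p1 : (((1 : ℤ) : ℂ)) = 1 := by push_cast; rfl

/-- `kkK f h e1` is invariant under `swK`. -/
private theorem kk_sw {m : ℕ} (hs : ∀ p : Pt m, swK (swK p) = p) {f h e1 : Pt m → ℂ}
    (hf : ∀ p, f (swK p) = f p) (p : Pt m) : kkK f h e1 (swK p) = kkK f h e1 p := by
  simp only [kkK]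
  rw [hs p, hf p]
  ring

/-- `zzK f h e1 e2` is invariant under `c2K`. -/
private theorem zz_c2 {m : ℕ} (hs : ∀ p : Pt m, swK (swK p) = p)
    (hc : ∀ p : Pt m, c2K (c2K p) = p) (hg : ∀ p : Pt m, gaK (c2K p) = swK (gaK p))
    {f h e1 e2 : Pt m → ℂ} (hf : ∀ p, f (swK p) = f p) (p : Pt m) :
    zzK f h e1 e2 (c2K p) = zzK f h e1 e2 p := by
  simp only [zzK]
  rw [hc p, hg p, kk_sw hs hf]
  ring

private theorem kk_mem {m : ℕ} (hm : 1 ≤ m) (hsw : TyH 1 (swK : Pt m → Pt m))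
    {f h e1 : Pt m → ℂ} (hf : f ∈ anti5 m) (hh : h ∈ anti5 m) (he : e1 ∈ anti5 m) :
    kkK f h e1 ∈ anti5 m := by
  have e : kkK f h e1 = e1 + (fun p => e1 (swK p)) - f - h - (fun p => h (swK p)) := rfl
  rw [e]
  exact Submodule.sub_mem _ (Submodule.sub_mem _ (Submodule.sub_mem _ (Submodule.add_mem _ he
    (anti_comp hm hsw he)) hf) hh) (anti_comp hm hsw hh)

private theorem zz_mem {m : ℕ} (hm : 1 ≤ m) (hsw : TyH 1 (swK : Pt m → Pt m))
    (hc : TyH 1 (c2K : Pt m → Pt m)) (hg : TyH 0 (gaK : Pt m → Pt m))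
    {f h e1 e2 : Pt m → ℂ} (hf : f ∈ anti5 m) (hh : h ∈ anti5 m) (he : e1 ∈ anti5 m)
    (he2 : e2 ∈ anti5 m) : zzK f h e1 e2 ∈ anti5 m := by
  have e : zzK f h e1 e2 = e2 + (fun p => e2 (c2K p)) - (fun p => kkK f h e1 (gaK p)) := rfl
  rw [e]
  exact Submodule.sub_mem _ (Submodule.add_mem _ he2 (anti_comp hm hc he2))
    (anti_comp hm hg (kk_mem hm hsw hf hh he))

/-- **Module DIMEK.** -/
theorem hDimEK : StHDimEK := by
  intro ht hk hk5 hs m hm
  obtain ⟨⟨a1, a2, a3, a4⟩, -, -, ⟨c1, c2, c3, c4⟩, ⟨h1, h2⟩, ⟨b1, b2⟩, ⟨d1, d2⟩, g1, g2⟩ := ht m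
  obtain ⟨q1, q2, -⟩ := hk m hm
  have eV := (hk5 m hm).1
  have eF := q1 ng swK 0 1 1 1 1 a1 a2 a3 a4 (Or.inl rfl) (Or.inl rfl)
  have eH := q2 c3K (-1) h1 h2 (Or.inr rfl)
  have eM := q2 dMK 1 d1 d2 (Or.inl rfl)
  have e1 := q2 c1K 1 b1 b2 (Or.inl rfl)
  have e3 := q1 (dR 1) c2K 0 1 1 (-1) 1 c1 c2 c3 c4 (Or.inr rfl) (Or.inl rfl)
  rw [p1] at eF eM e1
  rw [n1] at eH
  rw [n1, p1] at e3
  set Vf := inv5 (m := m) ng swK 1 1 with hVf
  set Vh := inv5 (m := m) c3K c3K (-1) (-1) with hVh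
  set VM := inv5 (m := m) dMK dMK 1 1 with hVM
  set V1 := inv5 (m := m) c1K c1K 1 1 with hV1
  set V3 := inv5 (m := m) (dR 1) c2K (-1) 1 with hV3
  set Q : SpK m →ₗ[ℂ] ((Pt m → ℂ) × (Pt m → ℂ)) := LinearMap.prod K1 K2 with hQ
  have hQa : ∀ F, Q F = (K1 F, K2 F) := fun _ => rfl
  have hmap : ((Vf.prod Vh).prod ((anti5 m).prod (VM.prod (anti5 m)))).map Q = V1.prod V3 := by
    apply le_antisymm
    · rintro _ ⟨F, hF, rfl⟩
      obtain ⟨⟨hF1, hF2⟩, hF3, hF4, hF5⟩ := hF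
      have hfs : ∀ p, F.1.1 (swK p) = F.1.1 p := by
        intro p
        rw [(hF1.2 p).2, one_mul]
      have hz := zz_mem hm a3 c3 g1 hF1.1 hF2.1 hF3 hF5
      have hzc := fun p => zz_c2 (h := F.1.2) (e1 := F.2.1) (e2 := F.2.2.2) a1.2.1 c1.2.1 g2 hfs p
      rw [hQa]
      refine ⟨⟨?_, fun p => ⟨?_, ?_⟩⟩, ?_, fun p => ⟨?_, ?_⟩⟩
      · have e : K1 F = (F.2.1 + F.2.2.1 - F.2.2.2) +
            (fun p => (F.2.1 + F.2.2.1 - F.2.2.2) (c1K p)) := rfl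
        have hw : F.2.1 + F.2.2.1 - F.2.2.2 ∈ anti5 m :=
          Submodule.sub_mem _ (Submodule.add_mem _ hF3 hF4.1) hF5
        rw [e]
        exact Submodule.add_mem _ hw (anti_comp hm b2 hw)
      · show K1 F (c1K p) = 1 * K1 F p
        rw [K1_apply, K1_apply, b1 p]
        ring
      · show K1 F (c1K p) = 1 * K1 F p
        rw [K1_apply, K1_apply, b1 p]
        ring
      · have e : K2 F = zzK F.1.1 F.1.2 F.2.1 F.2.2.2 -
            (fun p => zzK F.1.1 F.1.2 F.2.1 F.2.2.2 (dR 1 p)) := rfl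
        rw [e]
        exact Submodule.sub_mem _ hz (anti_comp hm c2 hz)
      · show K2 F (dR 1 p) = -1 * K2 F p
        rw [K2_apply, K2_apply, c1.1 p]
        ring
      · show K2 F (c2K p) = 1 * K2 F p
        rw [K2_apply, K2_apply, hzc p, c1.2.2 p, hzc (dR 1 p)]
        ring
    · rintro ⟨φ, ψ⟩ ⟨hφ, hψ⟩
      simp only at hφ hψ
      obtain ⟨f0, hf0, l0, hl0, hfn0, hld0, hfl0⟩ := hs 1 m hm ((2 : ℂ)⁻¹ • φ + (4 : ℂ)⁻¹ • ψ)
        (Submodule.add_mem _ (Submodule.smul_mem _ _ hφ.1) (Submodule.smul_mem _ _ hψ.1))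
      have s0 := anti_comp hm a3 hf0
      refine ⟨((f0 + (fun p => f0 (swK p)), 0), (f0, (0, (4 : ℂ)⁻¹ • ψ - l0))),
        ⟨⟨⟨?_, fun p => ⟨?_, ?_⟩⟩, Submodule.zero_mem _⟩, hf0, Submodule.zero_mem _, ?_⟩, ?_⟩
      · exact Submodule.add_mem _ hf0 s0
      · simp only [Pi.add_apply]
        rw [← a1.2.2 p, hfn0 p, hfn0 (swK p)]
        ring
      · simp only [Pi.add_apply]
        rw [a1.2.1 p]
        ring
      · exact Submodule.sub_mem _ (Submodule.smul_mem _ _ hψ.1) hl0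
      · rw [hQa, Prod.mk.injEq]
        constructor
        · funext p
          have x1 := hfl0 p
          have x2 := hfl0 (c1K p)
          simp only [Pi.add_apply, Pi.smul_apply, smul_eq_mul] at x1 x2
          rw [(hφ.2 p).1] at x2
          rw [K1_apply]
          simp only [Pi.sub_apply, Pi.zero_apply, Pi.smul_apply, smul_eq_mul]
          linear_combination x1 + x2
        · funext p
          rw [K2_apply]
          simp only [zzK, kkK, Pi.sub_apply, Pi.add_apply, Pi.zero_apply, Pi.smul_apply,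
            smul_eq_mul]
          rw [← c1.2.2 p, (hψ.2 (c2K p)).1, (hψ.2 p).2, (hψ.2 p).1, hld0 p, hld0 (c2K p)]
          ring
  have hker : ((Vf.prod Vh).prod ((anti5 m).prod (VM.prod (anti5 m)))) ⊓ LinearMap.ker Q =
      subEK m := by
    ext F
    constructor
    · rintro ⟨⟨⟨h1, h2⟩, h3, h4, h5⟩, h8⟩
      rw [SetLike.mem_coe, LinearMap.mem_ker, hQa, Prod.mk_eq_zero] at h8
      refine ⟨h1, h2, h3, h4, h5, fun p => ?_, fun p => ?_⟩
      · have := congrFun h8.1 p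
        simp only [K1_apply, Pi.zero_apply] at this
        exact this
      · have := congrFun h8.2 p
        simp only [K2_apply, Pi.zero_apply] at this
        exact this
    · rintro ⟨h1, h2, h3, h4, h5, h8, h9⟩
      refine ⟨⟨⟨h1, h2⟩, h3, h4, h5⟩, ?_⟩
      rw [SetLike.mem_coe, LinearMap.mem_ker, hQa, Prod.mk_eq_zero]
      constructor
      · funext p
        simp only [K1_apply, Pi.zero_apply]
        exact h8 p
      · funext p
        simp only [K2_apply, Pi.zero_apply]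
        exact h9 p
  have h6 := rn Q ((Vf.prod Vh).prod ((anti5 m).prod (VM.prod (anti5 m))))
  rw [hmap, hker] at h6
  simp only [fr_prod] at h6
  zify at h6 eV ⊢
  push_cast at eF eH eM e1 e3
  linarith

end Pool.Agent.Helper56.TK5
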